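import Mathlib

set_option autoImplicit false

/-!
The Prékopa–Leindler inequality in finite-dimensional real spaces.
-/

open MeasureTheory Set Filter
open scoped ENNReal NNReal Pointwise

namespace Pool.Agent.Lib.MP_2c1b2b_gt.H32

/-- The Prékopa–Leindler property of a measure on a real vector space. -/
def PL (E : Type*) [AddCommGroup E] [Module ℝ E] [MeasurableSpace E] (μ : Measure E) : Prop :=
  ∀ t : ℝ, 0 < t → t < 1 → ∀ f g h : E → ℝ≥0∞, Measurable f → Measurable g → Measurable h →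
    (∀ x y, f x ^ (1 - t) * g y ^ t ≤ h ((1 - t) • x + t • y)) →
    (∫⁻ x, f x ∂μ) ^ (1 - t) * (∫⁻ x, g x ∂μ) ^ t ≤ ∫⁻ x, h x ∂μ

/-! ### Dimension one: sets -/

/-- Brunn–Minkowski on the line for nonempty compact sets. -/
lemma line_add_compact {K L : Set ℝ} {C : Set ℝ} (hK : IsCompact K) (hL : IsCompact L)
    (hKn : K.Nonempty) (hLn : L.Nonempty) (hC : ∀ x ∈ K, ∀ y ∈ L, x + y ∈ C) :
    volume K + volume L ≤ volume C := by
  obtain ⟨a, haK, ha⟩ := hK.exists_isGreatest hKn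
  obtain ⟨b, hbL, hb⟩ := hL.exists_isLeast hLn
  have h1 : (fun x => x + b) '' K ⊆ C ∩ Iic (a + b) := by
    rintro _ ⟨x, hx, rfl⟩
    exact ⟨hC x hx b hbL, add_le_add_left (ha hx) b⟩
  have h2 : (fun x => a + x) '' L ⊆ C ∩ Ici (a + b) := by
    rintro _ ⟨x, hx, rfl⟩
    exact ⟨hC a haK x hx, add_le_add_right (hb hx) a⟩
  have e1 : volume ((fun x => x + b) '' K) = volume K := by
    rw [Set.image_add_right, measure_preimage_add_right]
  have e2 : volume ((fun x => a + x) '' L) = volume L := by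
    rw [Set.image_add_left, measure_preimage_add]
  have h3 : volume (C ∩ Ici (a + b)) = volume (C \ Iic (a + b)) := by
    have h4 : C \ Iic (a + b) = C ∩ Ioi (a + b) := by
      ext x; simp
    rw [h4]
    refine le_antisymm ?_ (measure_mono (inter_subset_inter_right _ Ioi_subset_Ici_self))
    calc volume (C ∩ Ici (a + b)) ≤ volume ((C ∩ Ioi (a + b)) ∪ {a + b}) := by
          refine measure_mono ?_
          rintro x ⟨hx, hx'⟩
          rcases eq_or_lt_of_le (show a + b ≤ x from hx') with h | h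
          · right; exact h.symm
          · left; exact ⟨hx, h⟩
      _ ≤ volume (C ∩ Ioi (a + b)) + volume ({a + b} : Set ℝ) := measure_union_le _ _
      _ = volume (C ∩ Ioi (a + b)) := by simp
  calc volume K + volume L ≤ volume (C ∩ Iic (a + b)) + volume (C ∩ Ici (a + b)) :=
        add_le_add (e1 ▸ measure_mono h1) (e2 ▸ measure_mono h2)
    _ = volume (C ∩ Iic (a + b)) + volume (C \ Iic (a + b)) := by rw [h3]
    _ = volume C := measure_inter_add_diff C measurableSet_Iic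

/-- Brunn–Minkowski on the line. -/
lemma line_add {A B C : Set ℝ} (hA : MeasurableSet A) (hB : MeasurableSet B)
    (hAn : A.Nonempty) (hBn : B.Nonempty) (hC : ∀ x ∈ A, ∀ y ∈ B, x + y ∈ C) :
    volume A + volume B ≤ volume C := by
  obtain ⟨a, ha⟩ := hAn
  obtain ⟨b, hb⟩ := hBn
  rw [hA.measure_eq_iSup_isCompact, hB.measure_eq_iSup_isCompact]
  simp only [iSup_and']
  refine ENNReal.biSup_add_biSup_le' ⟨∅, by simp⟩ ⟨∅, by simp⟩ ?_
  rintro K ⟨hK, hKc⟩ L ⟨hL, hLc⟩
  calc volume K + volume L ≤ volume (insert a K) + volume (insert b L) :=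
        add_le_add (measure_mono (subset_insert _ _)) (measure_mono (subset_insert _ _))
    _ ≤ volume C := by
        refine line_add_compact (hKc.insert a) (hLc.insert b) (insert_nonempty _ _)
          (insert_nonempty _ _) ?_
        intro x hx y hy
        refine hC x ?_ y ?_
        · rcases hx with rfl | hx
          · exact ha
          · exact hK hx
        · rcases hy with rfl | hy
          · exact hb
          · exact hL hy

/-- Weighted Brunn–Minkowski on the line. -/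
lemma line_weighted {t : ℝ} (ht0 : 0 < t) (ht1 : t < 1) {A B C : Set ℝ} (hA : MeasurableSet A)
    (hB : MeasurableSet B) (hAn : A.Nonempty) (hBn : B.Nonempty)
    (hC : ∀ x ∈ A, ∀ y ∈ B, (1 - t) • x + t • y ∈ C) :
    ENNReal.ofReal (1 - t) * volume A + ENNReal.ofReal t * volume B ≤ volume C := by
  have h1 : 0 < 1 - t := by linarith
  have eA : volume ((1 - t) • A) = ENNReal.ofReal (1 - t) * volume A := by
    rw [Measure.addHaar_smul]
    simp [abs_of_pos h1]
  have eB : volume (t • B) = ENNReal.ofReal t * volume B := by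
    rw [Measure.addHaar_smul]
    simp [abs_of_pos ht0]
  rw [← eA, ← eB]
  refine line_add (hA.const_smul₀ _) (hB.const_smul₀ _) hAn.smul_set hBn.smul_set ?_
  rintro _ ⟨x, hx, rfl⟩ _ ⟨y, hy, rfl⟩
  exact hC x hx y hy

/-! ### Dimension one: functions -/

lemma rpow_mul_rpow_lt {t : ℝ} (ht0 : 0 < t) (ht1 : t < 1) {a b s : ℝ≥0∞} (hs : s ≠ ∞)
    (ha : s < a) (hb : s < b) : s < a ^ (1 - t) * b ^ t := by
  have h1 : 0 < 1 - t := by linarith
  have e : s = s ^ (1 - t) * s ^ t := by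
    rw [← ENNReal.rpow_add_of_nonneg _ _ h1.le ht0.le]
    simp
  calc s = s ^ (1 - t) * s ^ t := e
    _ < a ^ (1 - t) * b ^ t :=
        ENNReal.mul_lt_mul (ENNReal.rpow_lt_rpow ha h1) (ENNReal.rpow_lt_rpow hb ht0)

/-- Weighted arithmetic-geometric inequality in `ℝ≥0∞`. -/
lemma geom_le_arith {t : ℝ} (ht0 : 0 < t) (ht1 : t < 1) (a b : ℝ≥0∞) :
    a ^ (1 - t) * b ^ t ≤ ENNReal.ofReal (1 - t) * a + ENNReal.ofReal t * b := by
  have h1 : 0 < 1 - t := by linarith
  rcases eq_or_ne a ∞ with rfl | ha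
  · have : ENNReal.ofReal (1 - t) * (∞ : ℝ≥0∞) = ∞ :=
      ENNReal.mul_top (by simpa using h1)
    rw [this]; simp
  rcases eq_or_ne b ∞ with rfl | hb
  · have : ENNReal.ofReal t * (∞ : ℝ≥0∞) = ∞ :=
      ENNReal.mul_top (by simpa using ht0)
    rw [this]; simp
  lift a to ℝ≥0 using ha
  lift b to ℝ≥0 using hb
  have h := NNReal.geom_mean_le_arith_mean2_weighted (Real.toNNReal (1 - t)) (Real.toNNReal t) a b
    (by rw [← Real.toNNReal_add h1.le ht0.le]; simp)
  rw [Real.coe_toNNReal _ h1.le, Real.coe_toNNReal _ ht0.le] at h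
  rw [← ENNReal.coe_rpow_of_nonneg _ h1.le, ← ENNReal.coe_rpow_of_nonneg _ ht0.le,
    ENNReal.ofReal, ENNReal.ofReal]
  exact_mod_cast h

lemma lintegral_eq_levels {f : ℝ → ℝ≥0∞} (hf : Measurable f) (hf1 : ∀ x, f x ≤ 1) :
    ∫⁻ x, f x = ∫⁻ s in Ioo (0 : ℝ) 1, volume {x | ENNReal.ofReal s < f x} := by
  have e1 : ∫⁻ x, f x = ∫⁻ x, ENNReal.ofReal (f x).toReal := by
    refine lintegral_congr (fun x => ?_)
    rw [ENNReal.ofReal_toReal (ne_top_of_le_ne_top ENNReal.one_ne_top (hf1 x))]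
  rw [e1, lintegral_eq_lintegral_meas_lt volume (ae_of_all _ (fun x => ENNReal.toReal_nonneg))
    hf.ennreal_toReal.aemeasurable]
  have e2 : ∀ s ∈ Ioi (0 : ℝ), volume {x | s < (f x).toReal} =
      (Ioo (0 : ℝ) 1).indicator (fun s => volume {x | ENNReal.ofReal s < f x}) s := by
    intro s hs
    have hs0 : 0 < s := hs
    by_cases h : s < 1
    · rw [indicator_of_mem (show s ∈ Ioo (0 : ℝ) 1 from ⟨hs0, h⟩)]
      congr 1
      ext x
      simp only [mem_setOf_eq]
      rw [ENNReal.ofReal_lt_iff_lt_toReal hs0.le (ne_top_of_le_ne_top ENNReal.one_ne_top (hf1 x))]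
    · rw [indicator_of_notMem (fun hh => h hh.2)]
      have : {x | s < (f x).toReal} = ∅ := by
        ext x
        simp only [mem_setOf_eq, mem_empty_iff_false, iff_false, not_lt]
        push Not at h
        refine le_trans ?_ h
        exact ENNReal.toReal_mono ENNReal.one_ne_top (hf1 x) |>.trans (by simp)
      rw [this, measure_empty]
  rw [setLIntegral_congr_fun measurableSet_Ioi e2, lintegral_indicator measurableSet_Ioo,
    Measure.restrict_restrict measurableSet_Ioo]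
  congr 2
  ext x
  constructor
  · rintro ⟨h, -⟩; exact h
  · intro h; exact ⟨h, h.1⟩

lemma measurable_levels (f : ℝ → ℝ≥0∞) :
    Measurable (fun s : ℝ => volume {x | ENNReal.ofReal s < f x}) := by
  refine Antitone.measurable (fun s s' hss => measure_mono ?_)
  intro x hx
  exact lt_of_le_of_lt (ENNReal.ofReal_le_ofReal hss) hx

/-- Normalised Prékopa–Leindler on the line. -/
lemma pl_line_normalised {t : ℝ} (ht0 : 0 < t) (ht1 : t < 1) {f g h : ℝ → ℝ≥0∞}
    (hf : Measurable f) (hg : Measurable g) (hh : Measurable h) (hf1 : ∀ x, f x ≤ 1)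
    (hg1 : ∀ x, g x ≤ 1) (hfs : ∀ s < 1, ∃ x, s < f x) (hgs : ∀ s < 1, ∃ x, s < g x)
    (H : ∀ x y, f x ^ (1 - t) * g y ^ t ≤ h ((1 - t) • x + t • y)) :
    ENNReal.ofReal (1 - t) * (∫⁻ x, f x) + ENNReal.ofReal t * (∫⁻ x, g x) ≤ ∫⁻ x, h x := by
  have h1 : 0 < 1 - t := by linarith
  have hmin : ∫⁻ x, min (h x) 1 ≤ ∫⁻ x, h x := lintegral_mono (fun x => min_le_left _ _)
  refine le_trans ?_ hmin
  rw [lintegral_eq_levels hf hf1, lintegral_eq_levels hg hg1,
    lintegral_eq_levels (hh.min measurable_const) (fun x => min_le_right _ _),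
    ← lintegral_const_mul _ (measurable_levels f), ← lintegral_const_mul _ (measurable_levels g),
    ← lintegral_add_left ((measurable_levels f).const_mul _)]
  refine setLIntegral_mono' measurableSet_Ioo ?_
  intro s hs
  have hs1 : ENNReal.ofReal s < 1 := by
    rw [← ENNReal.ofReal_one]; exact ENNReal.ofReal_lt_ofReal_iff one_pos |>.2 hs.2
  refine line_weighted ht0 ht1 (measurableSet_lt measurable_const hf)
    (measurableSet_lt measurable_const hg) (hfs _ hs1) (hgs _ hs1) ?_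
  intro x hx y hy
  simp only [mem_setOf_eq] at hx hy ⊢
  rw [lt_min_iff]
  exact ⟨lt_of_lt_of_le (rpow_mul_rpow_lt ht0 ht1 ENNReal.ofReal_ne_top hx hy) (H x y), hs1⟩

/-- Prékopa–Leindler on the line for bounded functions. -/
lemma pl_line_bounded {t : ℝ} (ht0 : 0 < t) (ht1 : t < 1) {f g h : ℝ → ℝ≥0∞}
    (hf : Measurable f) (hg : Measurable g) (hh : Measurable h) {n : ℝ≥0∞} (hn : n ≠ ∞)
    (hfn : ∀ x, f x ≤ n) (hgn : ∀ x, g x ≤ n)
    (H : ∀ x y, f x ^ (1 - t) * g y ^ t ≤ h ((1 - t) • x + t • y)) :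
    (∫⁻ x, f x) ^ (1 - t) * (∫⁻ x, g x) ^ t ≤ ∫⁻ x, h x := by
  have h1 : 0 < 1 - t := by linarith
  set a : ℝ≥0∞ := ⨆ x, f x with ha
  set b : ℝ≥0∞ := ⨆ x, g x with hb
  have ha' : a ≠ ∞ := ne_top_of_le_ne_top hn (iSup_le hfn)
  have hb' : b ≠ ∞ := ne_top_of_le_ne_top hn (iSup_le hgn)
  rcases eq_or_ne a 0 with ha0 | ha0
  · have : ∀ x, f x = 0 := fun x => le_antisymm (ha0 ▸ le_iSup f x) bot_le
    simp [this, ENNReal.zero_rpow_of_pos h1]
  rcases eq_or_ne b 0 with hb0 | hb0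
  · have : ∀ x, g x = 0 := fun x => le_antisymm (hb0 ▸ le_iSup g x) bot_le
    simp [this, ENNReal.zero_rpow_of_pos ht0]
  set c : ℝ≥0∞ := a⁻¹ ^ (1 - t) * b⁻¹ ^ t with hc
  have hai : a⁻¹ ≠ 0 := ENNReal.inv_ne_zero.2 ha'
  have hbi : b⁻¹ ≠ 0 := ENNReal.inv_ne_zero.2 hb'
  have hai' : a⁻¹ ≠ ∞ := ENNReal.inv_ne_top.2 ha0
  have hbi' : b⁻¹ ≠ ∞ := ENNReal.inv_ne_top.2 hb0
  have hc0 : c ≠ 0 := mul_ne_zero (by simp [ENNReal.rpow_eq_zero_iff, hai, hai', h1.le])
    (by simp [ENNReal.rpow_eq_zero_iff, hbi, hbi', ht0.le])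
  have hct : c ≠ ∞ := ENNReal.mul_ne_top (ENNReal.rpow_ne_top_of_nonneg h1.le hai')
    (ENNReal.rpow_ne_top_of_nonneg ht0.le hbi')
  have key := pl_line_normalised ht0 ht1 (f := fun x => a⁻¹ * f x) (g := fun x => b⁻¹ * g x)
    (h := fun x => c * h x) (hf.const_mul _) (hg.const_mul _) (hh.const_mul _)
    (fun x => by
      calc a⁻¹ * f x ≤ a⁻¹ * a := by gcongr; exact le_iSup f x
        _ = 1 := ENNReal.inv_mul_cancel ha0 ha')
    (fun x => by
      calc b⁻¹ * g x ≤ b⁻¹ * b := by gcongr; exact le_iSup g x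
        _ = 1 := ENNReal.inv_mul_cancel hb0 hb')
    (fun s hs => by
      have : s * a < a := by
        calc s * a < 1 * a := ENNReal.mul_lt_mul_left ha0 ha' hs
          _ = a := one_mul a
      obtain ⟨x, hx⟩ := lt_iSup_iff.1 (this.trans_eq ha)
      refine ⟨x, ?_⟩
      calc s = a⁻¹ * (s * a) := by
            rw [mul_comm s a, ← mul_assoc, ENNReal.inv_mul_cancel ha0 ha', one_mul]
        _ < a⁻¹ * f x := (ENNReal.mul_lt_mul_iff_right hai hai').2 hx)
    (fun s hs => by
      have : s * b < b := by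
        calc s * b < 1 * b := ENNReal.mul_lt_mul_left hb0 hb' hs
          _ = b := one_mul b
      obtain ⟨x, hx⟩ := lt_iSup_iff.1 (this.trans_eq hb)
      refine ⟨x, ?_⟩
      calc s = b⁻¹ * (s * b) := by
            rw [mul_comm s b, ← mul_assoc, ENNReal.inv_mul_cancel hb0 hb', one_mul]
        _ < b⁻¹ * g x := (ENNReal.mul_lt_mul_iff_right hbi hbi').2 hx)
    (fun x y => by
      rw [ENNReal.mul_rpow_of_nonneg _ _ h1.le, ENNReal.mul_rpow_of_nonneg _ _ ht0.le]
      calc a⁻¹ ^ (1 - t) * f x ^ (1 - t) * (b⁻¹ ^ t * g y ^ t)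
          = c * (f x ^ (1 - t) * g y ^ t) := by rw [hc]; ring
        _ ≤ c * h ((1 - t) • x + t • y) := by gcongr; exact H x y)
  rw [lintegral_const_mul _ hf, lintegral_const_mul _ hg, lintegral_const_mul _ hh] at key
  have h2 := (geom_le_arith ht0 ht1 (a⁻¹ * ∫⁻ x, f x) (b⁻¹ * ∫⁻ x, g x)).trans key
  rw [ENNReal.mul_rpow_of_nonneg _ _ h1.le, ENNReal.mul_rpow_of_nonneg _ _ ht0.le] at h2
  have h3 : c * ((∫⁻ x, f x) ^ (1 - t) * (∫⁻ x, g x) ^ t) ≤ c * ∫⁻ x, h x := by
    refine le_trans (le_of_eq ?_) h2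
    rw [hc]; ring
  exact (ENNReal.mul_le_mul_iff_right hc0 hct).1 h3

/-- Prékopa–Leindler on the line. -/
theorem pl_line : PL ℝ volume := by
  intro t ht0 ht1 f g h hf hg hh H
  have h1 : 0 < 1 - t := by linarith
  have key : ∀ n : ℕ, (∫⁻ x, min (f x) n) ^ (1 - t) * (∫⁻ x, min (g x) n) ^ t ≤ ∫⁻ x, h x := by
    intro n
    refine pl_line_bounded ht0 ht1 (hf.min measurable_const) (hg.min measurable_const) hh
      (ENNReal.natCast_ne_top n) (fun x => min_le_right _ _) (fun x => min_le_right _ _) ?_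
    intro x y
    refine le_trans ?_ (H x y)
    gcongr
    · exact min_le_left _ _
    · exact min_le_left _ _
  have hlim : ∀ F : ℝ → ℝ≥0∞, Measurable F →
      Tendsto (fun n : ℕ => ∫⁻ x, min (F x) n) atTop (nhds (∫⁻ x, F x)) := by
    intro F hF
    refine lintegral_tendsto_of_tendsto_of_monotone (fun n => (hF.min measurable_const).aemeasurable)
      (ae_of_all _ fun x m n hmn => ?_) (ae_of_all _ fun x => ?_)
    · exact min_le_min le_rfl (by exact_mod_cast hmn)
    · have : Tendsto (fun n : ℕ => min (F x) (n : ℝ≥0∞)) atTop (nhds (min (F x) ∞)) :=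
        tendsto_const_nhds.min ENNReal.tendsto_nat_nhds_top
      simpa using this
  rcases eq_or_ne (∫⁻ x, f x) 0 with hf0 | hf0
  · rw [hf0, ENNReal.zero_rpow_of_pos h1, zero_mul]; exact bot_le
  rcases eq_or_ne (∫⁻ x, g x) 0 with hg0 | hg0
  · rw [hg0, ENNReal.zero_rpow_of_pos ht0, mul_zero]; exact bot_le
  refine le_of_tendsto' (ENNReal.Tendsto.mul
    ((hlim f hf).ennrpow_const (1 - t)) (Or.inl ?_) ((hlim g hg).ennrpow_const t) (Or.inl ?_)) key
  · simp [ENNReal.rpow_eq_zero_iff, hf0, ht1.le]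
  · simp [ENNReal.rpow_eq_zero_iff, hg0, ht0.le]

/-! ### Products and transfer -/

section Transfer

variable {E F : Type*} [AddCommGroup E] [Module ℝ E] [MeasurableSpace E]
  [AddCommGroup F] [Module ℝ F] [MeasurableSpace F] {μ : Measure E} {ν : Measure F}

/-- Prékopa–Leindler on a product. -/
theorem PL.prod [SFinite μ] [SFinite ν] (hμ : PL E μ) (hν : PL F ν) : PL (E × F) (μ.prod ν) := by
  intro t ht0 ht1 f g h hf hg hh H
  rw [lintegral_prod _ hf.aemeasurable, lintegral_prod _ hg.aemeasurable,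
    lintegral_prod _ hh.aemeasurable]
  refine hμ t ht0 ht1 _ _ _ hf.lintegral_prod_right' hg.lintegral_prod_right'
    hh.lintegral_prod_right' ?_
  intro x y
  refine hν t ht0 ht1 _ _ _ (hf.comp measurable_prodMk_left) (hg.comp measurable_prodMk_left)
    (hh.comp measurable_prodMk_left) ?_
  intro u v
  exact H (x, u) (y, v)

/-- Transfer along a measure preserving linear isomorphism. -/
theorem PL.transfer (hμ : PL E μ) (e : E ≃ᵐ F) (he : MeasurePreserving e μ ν)
    (hlin : ∀ (a b : ℝ) (x y : E), e (a • x + b • y) = a • e x + b • e y) : PL F ν := by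
  intro t ht0 ht1 f g h hf hg hh H
  rw [← he.lintegral_comp hf, ← he.lintegral_comp hg, ← he.lintegral_comp hh]
  refine hμ t ht0 ht1 _ _ _ (hf.comp e.measurable) (hg.comp e.measurable) (hh.comp e.measurable) ?_
  intro x y
  rw [hlin]
  exact H _ _

end Transfer

/-- Prékopa–Leindler in `ℝ ^ n`. -/
theorem pl_fin (n : ℕ) : PL (Fin n → ℝ) volume := by
  induction n with
  | zero =>
    intro t ht0 ht1 f g h hf hg hh H
    have e : ∀ F : (Fin 0 → ℝ) → ℝ≥0∞, ∫⁻ x, F x = F 0 := by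
      intro F
      rw [volume_pi, Measure.pi_of_empty _ 0, lintegral_dirac]
    rw [e, e, e]
    have := H 0 0
    simpa using this
  | succ n ih =>
    have e := (volume_preserving_piFinSuccAbove (fun _ : Fin (n + 1) => ℝ) 0).symm
    refine (pl_line.prod ih).transfer _ e ?_
    intro a b x y
    ext i
    refine Fin.cases ?_ (fun j => ?_) i
    · simp [MeasurableEquiv.piFinSuccAbove]
    · simp [MeasurableEquiv.piFinSuccAbove]

/-- Prékopa–Leindler in `ℝ ^ ι`. -/
theorem pl_pi (ι : Type*) [Fintype ι] : PL (ι → ℝ) volume := by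
  have e := volume_measurePreserving_piCongrLeft (fun _ : ι => ℝ) (Fintype.equivFin ι).symm
  refine (pl_fin (Fintype.card ι)).transfer _ e ?_
  intro a b x y
  ext i
  obtain ⟨j, rfl⟩ := (Fintype.equivFin ι).symm.surjective i
  simp [MeasurableEquiv.piCongrLeft]

end Pool.Agent.Lib.MP_2c1b2b_gt.H32
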