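import Pool.Agent.Lib.MP_2c1b2b_gt.Interfaces
import Pool.Agent.Lib.MP_2c1b2b_gt.H32.PL

set_option autoImplicit false

open MeasureTheory Set
open scoped ENNReal

namespace Pool.Agent.Lib.MP_2c1b2b_gt.H32

theorem plStatement : PLStatement := by
  intro N f g h hf hg hh l hl0 hl1 H
  have := pl_fin N (1 - l) (by linarith) (by linarith) f g h hf hg hh (by
    intro x y
    simpa using H x y)
  simpa using this

end Pool.Agent.Lib.MP_2c1b2b_gt.H32
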