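import Pool.Agent.Lib.MP_2c1b2b_gt.Interfaces
import Pool.Agent.Lib.MP_2c1b2b_gt.H32.PL

set_option autoImplicit false

/-!
Step (A4): symmetrisation. If all the exponentially tilted Gaussian integrals over a convex set `K`
are at least `M`, then the integral of `exp (-|w|²)` over `K ∩ -K` is at least `(2 √π)^(-N) M²`.
-/

open MeasureTheory Set Filter
open scoped ENNReal NNReal Pointwise

namespace Pool.Agent.Lib.MP_2c1b2b_gt.H32

variable {N : ℕ}

lemma measurable_sq : Measurable (sq : (Fin N → ℝ) → ℝ) := by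
  unfold sq; fun_prop

lemma continuous_sq : Continuous (sq : (Fin N → ℝ) → ℝ) := by
  unfold sq; fun_prop

/-- `exp (-|x|²)` as an extended nonnegative number. -/
noncomputable def ga (x : Fin N → ℝ) : ℝ≥0∞ := ENNReal.ofReal (Real.exp (-(sq x)))

lemma measurable_ga : Measurable (ga : (Fin N → ℝ) → ℝ≥0∞) :=
  (measurable_sq.neg.exp).ennreal_ofReal

lemma sq_convex (x y : Fin N → ℝ) {t : ℝ} (h0 : 0 ≤ t) (h1 : t ≤ 1) :
    sq ((1 - t) • x + t • y) ≤ (1 - t) * sq x + t * sq y := by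
  unfold sq
  rw [Finset.mul_sum, Finset.mul_sum, ← Finset.sum_add_distrib]
  refine Finset.sum_le_sum (fun i _ => ?_)
  simp only [Pi.add_apply, Pi.smul_apply, smul_eq_mul]
  nlinarith [mul_nonneg (mul_nonneg h0 (sub_nonneg.2 h1)) (sq_nonneg (x i - y i))]

lemma ofReal_exp_rpow (a : ℝ) {t : ℝ} (ht : 0 ≤ t) :
    ENNReal.ofReal (Real.exp a) ^ t = ENNReal.ofReal (Real.exp (t * a)) := by
  rw [ENNReal.ofReal_rpow_of_nonneg (Real.exp_pos _).le ht, ← Real.exp_mul, mul_comm]

/-- The function `G`. -/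
noncomputable def G (K : Set (Fin N → ℝ)) (z : Fin N → ℝ) : ℝ≥0∞ :=
  ∫⁻ w, indicator {w | z + w ∈ K ∧ z - w ∈ K} ga w

lemma measurableSet_G {K : Set (Fin N → ℝ)} (hK : MeasurableSet K) (z : Fin N → ℝ) :
    MeasurableSet {w | z + w ∈ K ∧ z - w ∈ K} :=
  ((measurable_const_add z) hK).inter ((measurable_const_sub z) hK)

lemma G_logconcave {K : Set (Fin N → ℝ)} (hK : MeasurableSet K) (hKc : Convex ℝ K)
    {t : ℝ} (ht0 : 0 < t) (ht1 : t < 1) (z₁ z₂ : Fin N → ℝ) :
    G K z₁ ^ (1 - t) * G K z₂ ^ t ≤ G K ((1 - t) • z₁ + t • z₂) := by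
  have h1 : 0 < 1 - t := by linarith
  refine pl_fin N t ht0 ht1 _ _ _ (measurable_ga.indicator (measurableSet_G hK _))
    (measurable_ga.indicator (measurableSet_G hK _))
    (measurable_ga.indicator (measurableSet_G hK _)) ?_
  intro w₁ w₂
  by_cases hw₁ : w₁ ∈ {w | z₁ + w ∈ K ∧ z₁ - w ∈ K}
  swap
  · rw [indicator_of_notMem hw₁, ENNReal.zero_rpow_of_pos h1, zero_mul]; exact bot_le
  by_cases hw₂ : w₂ ∈ {w | z₂ + w ∈ K ∧ z₂ - w ∈ K}
  swap
  · rw [indicator_of_notMem hw₂, ENNReal.zero_rpow_of_pos ht0, mul_zero]; exact bot_le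
  have hw : (1 - t) • w₁ + t • w₂ ∈ {w | ((1 - t) • z₁ + t • z₂) + w ∈ K ∧
      ((1 - t) • z₁ + t • z₂) - w ∈ K} := by
    constructor
    · have := hKc hw₁.1 hw₂.1 h1.le ht0.le (by ring)
      convert this using 1
      module
    · have := hKc hw₁.2 hw₂.2 h1.le ht0.le (by ring)
      convert this using 1
      module
  rw [indicator_of_mem hw₁, indicator_of_mem hw₂, indicator_of_mem hw, ga, ga, ga,
    ofReal_exp_rpow _ h1.le, ofReal_exp_rpow _ ht0.le, ← ENNReal.ofReal_mul (Real.exp_pos _).le,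
    ← Real.exp_add]
  refine ENNReal.ofReal_le_ofReal (Real.exp_le_exp.2 ?_)
  have := sq_convex w₁ w₂ ht0.le ht1.le
  linarith

/-- The total mass. -/
lemma lintegral_ga : ∫⁻ x : Fin N → ℝ, ga x = ENNReal.ofReal (Real.sqrt Real.pi ^ N) := by
  have h1 : ∀ x : Fin N → ℝ, Real.exp (-(sq x)) = ∏ i, Real.exp (-(1 : ℝ) * x i ^ 2) := by
    intro x
    rw [← Real.exp_sum]
    congr 1
    unfold sq
    rw [← Finset.sum_neg_distrib]
    exact Finset.sum_congr rfl (fun i _ => by ring)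
  have h2 : Integrable (fun x : Fin N → ℝ => ∏ i, Real.exp (-(1 : ℝ) * x i ^ 2)) :=
    Integrable.fintype_prod (f := fun (_ : Fin N) (y : ℝ) => Real.exp (-(1 : ℝ) * y ^ 2))
      (fun _ => integrable_exp_neg_mul_sq one_pos)
  have h3 : ∫ x : Fin N → ℝ, ∏ i, Real.exp (-(1 : ℝ) * x i ^ 2) = Real.sqrt Real.pi ^ N := by
    rw [integral_fintype_prod_volume_eq_pow (fun y : ℝ => Real.exp (-(1 : ℝ) * y ^ 2)),
      integral_gaussian]
    simp
  rw [← h3, ofReal_integral_eq_lintegral_ofReal h2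
    (ae_of_all _ (fun x => Finset.prod_nonneg (fun i _ => (Real.exp_pos _).le)))]
  refine lintegral_congr (fun x => ?_)
  rw [ga, h1]

lemma G_lt_top (K : Set (Fin N → ℝ)) (z : Fin N → ℝ) : G K z < ∞ := by
  calc G K z ≤ ∫⁻ w : Fin N → ℝ, ga w := lintegral_mono (fun w => indicator_le_self _ _ _)
    _ < ∞ := by rw [lintegral_ga]; exact ENNReal.ofReal_lt_top

/-- `G` is bounded below near the origin. -/
lemma exists_lower {K : Set (Fin N → ℝ)} {r : ℝ} (hr : 0 < r)
    (hKr : ∀ z : Fin N → ℝ, (∀ i, |z i| ≤ r) → z ∈ K) :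
    ∃ s₀ : ℝ, ∀ z : Fin N → ℝ, (∀ i, |z i| ≤ r / 2) → ENNReal.ofReal (Real.exp s₀) ≤ G K z := by
  have hpos : 0 < ∫⁻ w in {w : Fin N → ℝ | ∀ i, |w i| ≤ r / 2}, ga w := by
    rw [setLIntegral_pos_iff measurable_ga]
    have hsupp : (Function.support (ga : (Fin N → ℝ) → ℝ≥0∞)) = univ := by
      ext x
      simp [ga, Real.exp_pos]
    rw [hsupp, univ_inter]
    have hopen : IsOpen {w : Fin N → ℝ | ∀ i, |w i| < r / 2} := by
      simp only [setOf_forall]
      exact isOpen_iInter_of_finite (fun i => isOpen_lt (by fun_prop) continuous_const)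
    refine lt_of_lt_of_le (hopen.measure_pos volume ⟨0, fun i => by simpa using half_pos hr⟩)
      (measure_mono (fun w hw i => (hw i).le))
  set c := ∫⁻ w in {w : Fin N → ℝ | ∀ i, |w i| ≤ r / 2}, ga w with hc
  have hmeas : MeasurableSet {w : Fin N → ℝ | ∀ i, |w i| ≤ r / 2} := by
    simp only [setOf_forall]
    exact MeasurableSet.iInter (fun i => measurableSet_le (by fun_prop) measurable_const)
  have hle : ∀ z : Fin N → ℝ, (∀ i, |z i| ≤ r / 2) → c ≤ G K z := by
    intro z hz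
    rw [hc, ← lintegral_indicator hmeas, G]
    refine lintegral_mono (fun w => indicator_le_indicator_of_subset ?_ (fun _ => bot_le) w)
    intro w hw
    constructor
    · refine hKr _ (fun i => ?_)
      calc |(z + w) i| ≤ |z i| + |w i| := abs_add_le _ _
        _ ≤ r := by linarith [hz i, hw i]
    · refine hKr _ (fun i => ?_)
      calc |(z - w) i| ≤ |z i| + |w i| := abs_sub _ _
        _ ≤ r := by linarith [hz i, hw i]
  have hct : c ≠ ∞ := by
    refine ((hle 0 (fun i => by simpa using (half_pos hr).le)).trans_lt (G_lt_top K 0)).ne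
  refine ⟨Real.log c.toReal, fun z hz => ?_⟩
  rw [Real.exp_log (ENNReal.toReal_pos hpos.ne' hct), ENNReal.ofReal_toReal hct]
  exact hle z hz

/-- A supergradient of `log G` at the origin. -/
lemma exists_supergradient {K : Set (Fin N → ℝ)} (hK : MeasurableSet K) (hKc : Convex ℝ K)
    {r : ℝ} (hr : 0 < r) (hKr : ∀ z : Fin N → ℝ, (∀ i, |z i| ≤ r) → z ∈ K) :
    ∃ θ : Fin N → ℝ, ∀ z, G K z ≤ G K 0 * ENNReal.ofReal (Real.exp (∑ i, θ i * z i)) := by
  obtain ⟨s₀, hs₀⟩ := exists_lower hr hKr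
  have hG0 : ENNReal.ofReal (Real.exp s₀) ≤ G K 0 := hs₀ 0 (fun i => by simpa using (half_pos hr).le)
  have hG0pos : 0 < (G K 0).toReal :=
    ENNReal.toReal_pos (lt_of_lt_of_le (by simp [Real.exp_pos]) hG0).ne' (G_lt_top K 0).ne
  set L : ℝ := Real.log (G K 0).toReal with hL
  have hG0e : G K 0 = ENNReal.ofReal (Real.exp L) := by
    rw [hL, Real.exp_log hG0pos, ENNReal.ofReal_toReal (G_lt_top K 0).ne]
  set H : Set ((Fin N → ℝ) × ℝ) := {p | ENNReal.ofReal (Real.exp p.2) ≤ G K p.1} with hH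
  have hHc : Convex ℝ H := by
    rw [convex_iff_forall_pos]
    rintro ⟨z₁, s₁⟩ h₁ ⟨z₂, s₂⟩ h₂ a b ha hb hab
    have ha' : a = 1 - b := by linarith
    subst ha'
    simp only [hH, mem_setOf_eq] at h₁ h₂ ⊢
    calc ENNReal.ofReal (Real.exp (((1 - b) • (z₁, s₁) + b • (z₂, s₂)).2))
        = ENNReal.ofReal (Real.exp s₁) ^ (1 - b) * ENNReal.ofReal (Real.exp s₂) ^ b := by
          rw [ofReal_exp_rpow _ ha.le, ofReal_exp_rpow _ hb.le,
            ← ENNReal.ofReal_mul (Real.exp_pos _).le, ← Real.exp_add]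
          simp
      _ ≤ G K z₁ ^ (1 - b) * G K z₂ ^ b := by gcongr
      _ ≤ _ := G_logconcave hK hKc hb (by linarith) z₁ z₂
  have hopen : IsOpen ({z : Fin N → ℝ | ∀ i, |z i| < r / 2} ×ˢ Iio s₀) := by
    refine IsOpen.prod ?_ isOpen_Iio
    simp only [setOf_forall]
    exact isOpen_iInter_of_finite (fun i => isOpen_lt (by fun_prop) continuous_const)
  have hsub : {z : Fin N → ℝ | ∀ i, |z i| < r / 2} ×ˢ Iio s₀ ⊆ interior H := by
    refine interior_maximal ?_ hopen
    rintro ⟨z, s⟩ ⟨hz, hs⟩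
    simp only [hH, mem_setOf_eq]
    refine le_trans (ENNReal.ofReal_le_ofReal (Real.exp_le_exp.2 ?_)) (hs₀ z (fun i => (hz i).le))
    exact (show s < s₀ from hs).le
  have hnon : (interior H).Nonempty := by
    refine ⟨(0, s₀ - 1), hsub ⟨fun i => ?_, ?_⟩⟩
    · simpa using half_pos hr
    · simp
  have hnotin : ((0 : Fin N → ℝ), L) ∉ interior H := by
    intro hmem
    have hcont : Tendsto (fun ε : ℝ => ((0 : Fin N → ℝ), L + ε)) (nhds 0)
        (nhds ((0 : Fin N → ℝ), L + 0)) := by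
      exact Continuous.tendsto (by fun_prop) 0
    rw [add_zero] at hcont
    have hev := hcont.eventually (isOpen_interior.mem_nhds hmem)
    have hev2 : ∀ᶠ ε in nhdsWithin (0 : ℝ) (Ioi 0), ((0 : Fin N → ℝ), L + ε) ∈ interior H :=
      hev.filter_mono nhdsWithin_le_nhds
    obtain ⟨ε, hε, hε0⟩ := (hev2.and self_mem_nhdsWithin).exists
    have h0 : ((0 : Fin N → ℝ), L + ε) ∈ H := interior_subset hε
    have h1 : ENNReal.ofReal (Real.exp (L + ε)) ≤ G K 0 := h0
    rw [hG0e, ENNReal.ofReal_le_ofReal_iff (Real.exp_pos _).le, Real.exp_le_exp] at h1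
    have : (0 : ℝ) < ε := hε0
    linarith
  obtain ⟨f, hf0, hf⟩ := geometric_hahn_banach_of_nonempty_interior_point hHc hnotin hnon
  -- decompose `f`
  set κ : ℝ := f (0, 1) with hκ
  have hfs : ∀ z s, f (z, s) = f (z, 0) + κ * s := by
    intro z s
    have : ((z, s) : (Fin N → ℝ) × ℝ) = (z, 0) + s • (0, 1) := by
      ext <;> simp
    rw [this, map_add, map_smul, smul_eq_mul, mul_comm]
  have hf00 : f ((0 : Fin N → ℝ), (0 : ℝ)) = 0 := by
    have : ((0 : Fin N → ℝ), (0 : ℝ)) = 0 := rfl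
    rw [this, map_zero]
  have hfp : f ((0 : Fin N → ℝ), L) = κ * L := by rw [hfs, hf00, zero_add]
  have hκ0 : 0 ≤ κ := by
    -- points far down are in `H`
    by_contra hneg
    push Not at hneg
    have h1 : ((0 : Fin N → ℝ), min (L - 1) s₀) ∈ H := by
      simp only [hH, mem_setOf_eq]
      exact le_trans (ENNReal.ofReal_le_ofReal (Real.exp_le_exp.2 (min_le_right _ _))) hG0
    have h2 := hf _ h1
    rw [hfp, hfs, hf00, zero_add] at h2
    have h3 : min (L - 1) s₀ ≤ L - 1 := min_le_left _ _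
    nlinarith
  have hκpos : 0 < κ := by
    rcases hκ0.lt_or_eq with h | h
    · exact h
    · exfalso
      -- then `f (z, 0) ≤ 0` for small `z`, hence `f = 0`
      have h1 : ∀ z : Fin N → ℝ, (∀ i, |z i| < r / 2) → f (z, 0) ≤ 0 := by
        intro z hz
        have h2 : ((z, s₀ - 1) : (Fin N → ℝ) × ℝ) ∈ H := interior_subset (hsub ⟨hz, by simp⟩)
        have h3 := hf _ h2
        rw [hfp, hfs, ← h] at h3
        linarith
      have h4 : ∀ z : Fin N → ℝ, f (z, 0) = 0 := by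
        intro z
        set c : ℝ := r / (4 * (∑ i, |z i| + 1)) with hcdef
        have hS : 0 < ∑ i, |z i| + 1 := by positivity
        have hc0 : 0 < c := by positivity
        have hcz : ∀ i, |c * z i| < r / 2 := by
          intro i
          have h5 : |z i| ≤ ∑ i, |z i| := Finset.single_le_sum (f := fun i => |z i|)
            (fun j _ => abs_nonneg _) (Finset.mem_univ i)
          rw [abs_mul, abs_of_pos hc0, hcdef, div_mul_eq_mul_div, div_lt_div_iff₀ (by positivity)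
            (by norm_num)]
          nlinarith
        have h6 := h1 (c • z) (fun i => by simpa using hcz i)
        have h7 := h1 (-(c • z)) (fun i => by simpa using hcz i)
        have h8 : ∀ a : ℝ, f (a • z, 0) = a * f (z, 0) := by
          intro a
          have : ((a • z, (0 : ℝ)) : (Fin N → ℝ) × ℝ) = a • (z, 0) := by ext <;> simp
          rw [this, map_smul, smul_eq_mul]
        rw [← neg_smul, h8] at h7
        rw [h8] at h6
        have h9 : c * f (z, 0) = 0 := by linarith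
        rcases mul_eq_zero.1 h9 with h | h
        · exact absurd h hc0.ne'
        · exact h
      apply hf0
      refine ContinuousLinearMap.ext (fun p => ?_)
      have h10 := hfs p.1 p.2
      rw [h4, ← h] at h10
      simpa using h10
  refine ⟨fun i => -(f (Pi.single i 1, 0)) / κ, fun z => ?_⟩
  have hsum : ∑ i, (-(f (Pi.single i 1, 0)) / κ) * z i = -(f (z, 0)) / κ := by
    have h1 : f (z, 0) = ∑ i, z i * f (Pi.single i 1, 0) := by
      have h2 : (z, (0 : ℝ)) = ∑ i, z i • ((Pi.single i 1 : Fin N → ℝ), (0 : ℝ)) := by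
        ext j
        · simp [Prod.fst_sum, Finset.sum_apply, Pi.single_apply]
        · simp [Prod.snd_sum]
      rw [h2, map_sum]
      exact Finset.sum_congr rfl (fun i _ => by rw [map_smul, smul_eq_mul])
    rw [h1, ← Finset.sum_neg_distrib, Finset.sum_div]
    exact Finset.sum_congr rfl (fun i _ => by ring)
  rw [hsum]
  rcases eq_or_ne (G K z) 0 with hz0 | hz0
  · rw [hz0]; exact bot_le
  have hzt := (G_lt_top K z).ne
  set s : ℝ := Real.log (G K z).toReal with hs
  have hze : G K z = ENNReal.ofReal (Real.exp s) := by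
    rw [hs, Real.exp_log (ENNReal.toReal_pos hz0 hzt), ENNReal.ofReal_toReal hzt]
  have hmem : (z, s) ∈ H := by
    simp only [hH, mem_setOf_eq]
    rw [← hze]
  have h1 := hf _ hmem
  rw [hfp, hfs] at h1
  rw [hze, hG0e, ← ENNReal.ofReal_mul (Real.exp_pos _).le, ← Real.exp_add]
  refine ENNReal.ofReal_le_ofReal (Real.exp_le_exp.2 ?_)
  rw [← sub_le_iff_le_add', le_div_iff₀ hκpos]
  nlinarith

/-- Scaling by two. -/
lemma lintegral_two_smul (F : (Fin N → ℝ) → ℝ≥0∞) (hF : Measurable F) :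
    ENNReal.ofReal (2 ^ N) * ∫⁻ w, F ((2 : ℝ) • w) = ∫⁻ w, F w := by
  have h1 : ∫⁻ w, F ((2 : ℝ) • w) = ∫⁻ w, F w ∂(Measure.map ((2 : ℝ) • ·) volume) := by
    rw [lintegral_map hF (measurable_const_smul (2 : ℝ))]
  rw [h1, Measure.map_addHaar_smul volume two_ne_zero, lintegral_smul_measure, smul_eq_mul,
    ← mul_assoc, ← ENNReal.ofReal_mul (by positivity)]
  have h2 : (2 : ℝ) ^ N * |(2 ^ Module.finrank ℝ (Fin N → ℝ))⁻¹| = 1 := by
    rw [abs_of_pos (by positivity)]
    simp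
  rw [h2]; simp

/-- The rotation `(z, w) ↦ (z + w, z - w)`. -/
lemma lintegral_rotate (F : (Fin N → ℝ) → ℝ≥0∞) (hF : Measurable F) :
    ENNReal.ofReal (2 ^ N) * ∫⁻ z, ∫⁻ w, F (z + w) * F (z - w) = (∫⁻ a, F a) ^ 2 := by
  have hm1 : Measurable (fun p : (Fin N → ℝ) × (Fin N → ℝ) => F (p.1 + p.2) * F (p.1 - p.2)) :=
    (hF.comp (by fun_prop)).mul (hF.comp (by fun_prop))
  have hm2 : Measurable (fun p : (Fin N → ℝ) × (Fin N → ℝ) =>
      F (p.2 + (2 : ℝ) • p.1) * F p.2) :=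
    (hF.comp (by fun_prop)).mul (hF.comp (by fun_prop))
  have e1 : ∫⁻ z, ∫⁻ w, F (z + w) * F (z - w) = ∫⁻ w, ∫⁻ z, F (z + w) * F (z - w) :=
    lintegral_lintegral_swap hm1.aemeasurable
  have e2 : ∀ w : Fin N → ℝ, ∫⁻ z, F (z + w) * F (z - w) = ∫⁻ z, F (z + (2 : ℝ) • w) * F z := by
    intro w
    rw [← lintegral_add_right_eq_self (fun z => F (z + w) * F (z - w)) w]
    refine lintegral_congr (fun z => ?_)
    have h1 : z + w + w = z + (2 : ℝ) • w := by rw [two_smul]; abel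
    have h2 : z + w - w = z := by abel
    rw [h1, h2]
  have e3 : ∫⁻ w, ∫⁻ z, F (z + (2 : ℝ) • w) * F z = ∫⁻ z, ∫⁻ w, F (z + (2 : ℝ) • w) * F z :=
    lintegral_lintegral_swap hm2.aemeasurable
  have e4 : ∀ z : Fin N → ℝ, ENNReal.ofReal (2 ^ N) * ∫⁻ w, F (z + (2 : ℝ) • w) * F z =
      (∫⁻ a, F a) * F z := by
    intro z
    have hm : Measurable (fun w : Fin N → ℝ => F (z + w)) := hF.comp (by fun_prop)
    have hm' : Measurable (fun w : Fin N → ℝ => F (z + (2 : ℝ) • w)) := hF.comp (by fun_prop)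
    have h3 : ∫⁻ w, F (z + (2 : ℝ) • w) * F z = (∫⁻ w, F (z + (2 : ℝ) • w)) * F z :=
      lintegral_mul_const _ hm'
    have h4 := lintegral_two_smul (fun w => F (z + w)) hm
    have h5 : ∫⁻ w, F (z + w) = ∫⁻ w, F w := lintegral_add_left_eq_self F z
    rw [h3, ← mul_assoc]
    rw [← h5, ← h4]
  rw [e1]
  simp_rw [e2]
  rw [e3, ← lintegral_const_mul]
  · simp_rw [e4]
    rw [lintegral_const_mul _ hF, pow_two]
  · exact hm2.lintegral_prod_left'

/-- **Symmetrisation.** -/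
theorem symmetrisation {K : Set (Fin N → ℝ)} (hK : MeasurableSet K) (hKc : Convex ℝ K)
    {r : ℝ} (hr : 0 < r) (hKr : ∀ z : Fin N → ℝ, (∀ i, |z i| ≤ r) → z ∈ K) {M : ℝ≥0∞}
    (hM : ∀ θ : Fin N → ℝ,
      M ≤ ∫⁻ z in K, ENNReal.ofReal (Real.exp (∑ i, θ i * z i - sq z / 2))) :
    M ^ 2 ≤ ENNReal.ofReal ((2 * Real.sqrt Real.pi) ^ N) *
      ∫⁻ w in {w | w ∈ K ∧ -w ∈ K}, ENNReal.ofReal (Real.exp (-(sq w))) := by
  obtain ⟨θ, hθ⟩ := exists_supergradient hK hKc hr hKr
  have hG0 : G K 0 = ∫⁻ w in {w | w ∈ K ∧ -w ∈ K}, ENNReal.ofReal (Real.exp (-(sq w))) := by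
    have hset : MeasurableSet {w : Fin N → ℝ | w ∈ K ∧ -w ∈ K} := hK.inter (measurable_neg hK)
    rw [← lintegral_indicator hset, G]
    refine lintegral_congr (fun w => ?_)
    simp only [zero_add, zero_sub]
    rfl
  rw [← hG0]
  -- the tilted function
  set F : (Fin N → ℝ) → ℝ≥0∞ := K.indicator
    (fun a => ENNReal.ofReal (Real.exp (∑ i, (-(θ i) / 2) * a i - sq a / 2))) with hF
  have hmE : Measurable (fun a : Fin N → ℝ =>
      ENNReal.ofReal (Real.exp (∑ i, (-(θ i) / 2) * a i - sq a / 2))) := by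
    refine (Measurable.exp ?_).ennreal_ofReal
    exact (Finset.measurable_sum _ (fun i _ => (measurable_pi_apply i).const_mul _)).sub
      (measurable_sq.div_const 2)
  have hFm : Measurable F := hmE.indicator hK
  have hMF : M ≤ ∫⁻ a, F a := by
    rw [hF, lintegral_indicator hK]
    exact hM (fun i => -(θ i) / 2)
  have hpt : ∀ z w : Fin N → ℝ, F (z + w) * F (z - w) =
      indicator {w | z + w ∈ K ∧ z - w ∈ K} ga w *
        ENNReal.ofReal (Real.exp (-(∑ i, θ i * z i) - sq z)) := by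
    intro z w
    by_cases hw : z + w ∈ K ∧ z - w ∈ K
    · rw [hF, indicator_of_mem hw.1, indicator_of_mem hw.2,
        indicator_of_mem (show w ∈ {w | z + w ∈ K ∧ z - w ∈ K} from hw), ga,
        ← ENNReal.ofReal_mul (Real.exp_pos _).le, ← ENNReal.ofReal_mul (Real.exp_pos _).le,
        ← Real.exp_add, ← Real.exp_add]
      congr 2
      have e1 : sq (z + w) + sq (z - w) = 2 * sq z + 2 * sq w := by
        unfold sq
        rw [← Finset.sum_add_distrib, Finset.mul_sum, Finset.mul_sum, ← Finset.sum_add_distrib]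
        refine Finset.sum_congr rfl (fun i _ => ?_)
        simp only [Pi.add_apply, Pi.sub_apply]; ring
      have e2 : ∑ i, (-(θ i) / 2) * (z + w) i + ∑ i, (-(θ i) / 2) * (z - w) i =
          -(∑ i, θ i * z i) := by
        rw [← Finset.sum_add_distrib, ← Finset.sum_neg_distrib]
        refine Finset.sum_congr rfl (fun i _ => ?_)
        simp only [Pi.add_apply, Pi.sub_apply]; ring
      linarith
    · rw [indicator_of_notMem (show w ∉ {w | z + w ∈ K ∧ z - w ∈ K} from hw), zero_mul]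
      rw [not_and_or] at hw
      rcases hw with h | h
      · rw [hF, indicator_of_notMem h, zero_mul]
      · rw [hF, indicator_of_notMem h, mul_zero]
  have hrot := lintegral_rotate F hFm
  have hin : ∀ z : Fin N → ℝ, ∫⁻ w, F (z + w) * F (z - w) =
      G K z * ENNReal.ofReal (Real.exp (-(∑ i, θ i * z i) - sq z)) := by
    intro z
    simp_rw [hpt]
    rw [lintegral_mul_const _ (measurable_ga.indicator (measurableSet_G hK z))]
    rfl
  have hbound : ∀ z : Fin N → ℝ,
      G K z * ENNReal.ofReal (Real.exp (-(∑ i, θ i * z i) - sq z)) ≤ G K 0 * ga z := by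
    intro z
    calc G K z * ENNReal.ofReal (Real.exp (-(∑ i, θ i * z i) - sq z))
        ≤ (G K 0 * ENNReal.ofReal (Real.exp (∑ i, θ i * z i))) *
          ENNReal.ofReal (Real.exp (-(∑ i, θ i * z i) - sq z)) := by gcongr; exact hθ z
      _ = G K 0 * ga z := by
          rw [mul_assoc, ← ENNReal.ofReal_mul (Real.exp_pos _).le, ← Real.exp_add, ga]
          congr 3; ring
  calc M ^ 2 ≤ (∫⁻ a, F a) ^ 2 := by gcongr
    _ = ENNReal.ofReal (2 ^ N) * ∫⁻ z, ∫⁻ w, F (z + w) * F (z - w) := hrot.symm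
    _ ≤ ENNReal.ofReal (2 ^ N) * ∫⁻ z, G K 0 * ga z := by
        gcongr with z
        rw [hin]; exact hbound z
    _ = ENNReal.ofReal (2 ^ N) * (G K 0 * ENNReal.ofReal (Real.sqrt Real.pi ^ N)) := by
        rw [lintegral_const_mul _ measurable_ga, lintegral_ga]
    _ = ENNReal.ofReal ((2 * Real.sqrt Real.pi) ^ N) * G K 0 := by
        rw [mul_pow, ENNReal.ofReal_mul (by positivity)]; ring

/-- Symmetrisation, in terms of the Gaussian weight `gw`. -/
theorem symmetrisation_gw {K : Set (Fin N → ℝ)} (hK : MeasurableSet K) (hKc : Convex ℝ K)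
    {r : ℝ} (hr : 0 < r) (hKr : ∀ z : Fin N → ℝ, (∀ i, |z i| ≤ r) → z ∈ K) {M : ℝ≥0∞}
    (hM : ∀ θ : Fin N → ℝ,
      M ≤ ∫⁻ z in K, ENNReal.ofReal (Real.exp (∑ i, θ i * z i - sq z / 2))) :
    M ^ 2 ≤ ENNReal.ofReal ((2 * Real.sqrt Real.pi) ^ N) * gw {w | w ∈ K ∧ -w ∈ K} := by
  refine (symmetrisation hK hKc hr hKr hM).trans ?_
  unfold gw
  gcongr with w
  have : 0 ≤ sq w := Finset.sum_nonneg (fun i _ => sq_nonneg _)
  linarith

end Pool.Agent.Lib.MP_2c1b2b_gt.H32
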